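import Pool.Agent.X104.RT.Unif

/-!
# Uniform regularity does not replace finite generation over `ℝ`-trees (MP_13bb8c_an)

`Lip0 T o` is the space of the Lipschitz functions `T → ℝ` vanishing at `o`, normed by the Lipschitz
constant, `dlt T o x` the evaluation at `x`, and `FreeSp T o` the Lipschitz-free space: the closed
linear span of the evaluations in the dual of `Lip0 T o` (definitions in
`Pool/Agent/H266R3/LDef.lean`).

The theorem disproves Q1: there is a COMPACT `ℝ`-tree `T` and a bounded, uniformly regular set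
`W ⊆ F(T)` satisfying (a) which is not relatively weakly compact.

The tree branches at the heights `1 - 2^(-k²)`; over a word of `k²+1` bits there is one vertex at
height `1 - 2^(-(k+1)²)`, and `W` consists of the sums, over all pairs of vertices of one level
differing in the last bit, of the differences of the two evaluations.
* (a): the densities with respect to the length measure are bounded by `1`.
* Not relatively weakly compact: there are functions `f_N` in the unit ball of `Lip0` which tend to
  `0` uniformly with `γ_j(f_N) ≥ 1` for `j ≥ N`.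
* Uniform regularity: given `U`, all but few of the vertices above which every end lies in `U` sit
  above a clopen set of ends contained in `U`; every other vertex is moved, at negligible total
  cost, to an end outside `U`.
-/

set_option autoImplicit false

noncomputable section

open Set Filter Topology
open Pool.Agent.H266R3.LF

namespace Pool.Agent.Results.MP_13bb8c_an.NotCharacterised

/-- `A` is an arc joining `x` to `y`: the image of `[0,1]` under a continuous injective map sending
`0` to `x` and `1` to `y`. -/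
def IsArc {T : Type} [MetricSpace T] (x y : T) (A : Set T) : Prop :=
  ∃ α : unitInterval → T, Continuous α ∧ Function.Injective α ∧ α 0 = x ∧ α 1 = y ∧
    Set.range α = A

/-- `T` is an `ℝ`-tree: any two distinct points `x, y` are joined by a unique arc, and this arc is
isometric to `[0, d(x,y)]`. -/
def IsRTree (T : Type) [MetricSpace T] : Prop :=
  ∀ x y : T, x ≠ y → ∃ A : Set T, IsArc x y A ∧ (∀ B : Set T, IsArc x y B → B = A) ∧
    ∃ φ : Set.Icc (0 : ℝ) (dist x y) → T, Isometry φ ∧ Set.range φ = A

section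

variable {T : Type} [MetricSpace T] {o : T}

/-- The point evaluation `δ(x)` as an element of `F(T)`. -/
def delta (o x : T) : FreeSp T o := ⟨dlt T o x, dlt_mem x⟩

/-- The molecule `(δ(x) - δ(y)) / d(x,y)`. -/
def molecule (o x y : T) : FreeSp T o := (dist x y)⁻¹ • (delta o x - delta o y)

/-- Condition (a) of the problem. -/
def CondA (W : Set (FreeSp T o)) : Prop :=
  ∀ ε : ℝ, 0 < ε → ∃ δ : ℝ, 0 < δ ∧ ∀ (n : ℕ) (a : Fin n → ℝ) (x y : Fin n → T),
    (∀ i, x i ≠ y i) → ‖∑ i, a i • molecule o (x i) (y i)‖ = ∑ i, |a i| →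
      ∀ I : Finset (Fin n), ∑ i ∈ I, dist (x i) (y i) < δ →
        ∑ i ∈ I, |a i| ≤ ε + Metric.infDist (∑ i, a i • molecule o (x i) (y i)) W

/-- `F(A)`: the closed linear span of the evaluations at the points of `A`. -/
def freeSub (o : T) (A : Set T) : Submodule ℝ (FreeSp T o) :=
  (Submodule.span ℝ (delta o '' A)).topologicalClosure

/-- Uniform regularity: for every open `U` and `ε > 0` there is a compact `K ⊆ U` with
`W ⊆ F(K ∪ (T ∖ U)) + ε B`. -/
def UniformlyRegular (W : Set (FreeSp T o)) : Prop :=
  ∀ U : Set T, IsOpen U → ∀ ε : ℝ, 0 < ε → ∃ K : Set T, IsCompact K ∧ K ⊆ U ∧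
    ∀ γ ∈ W, ∃ β ∈ freeSub o (K ∪ Uᶜ), ‖γ - β‖ ≤ ε

/-- Norm boundedness. -/
def NormBounded (W : Set (FreeSp T o)) : Prop := ∃ C : ℝ, ∀ γ ∈ W, ‖γ‖ ≤ C

/-- Relative weak compactness: the closure in the weak topology of the Banach space `F(T)` is weakly
compact. -/
def RelWeaklyCompact (W : Set (FreeSp T o)) : Prop :=
  IsCompact (closure (toWeakSpace ℝ (FreeSp T o) '' W))

end

open Pool.Agent.X104.RT

theorem inc_molecule (x y : Tr) : inc Tr root (molecule root x y) = mol root x y := by
  unfold molecule mol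
  rw [map_smul, map_sub]
  rfl

/-- the sequence in the free space -/
def gamF (j : ℕ) : FreeSp Tr root :=
  ∑ w : Fin (j ^ 2) → Bool, (delta root (zz j w false) - delta root (zz j w true))

theorem inc_gamF (j : ℕ) : inc Tr root (gamF j) = gam j := by
  unfold gamF gam
  rw [map_sum]
  refine Finset.sum_congr rfl fun w _ => ?_
  rw [map_sub]
  rfl

theorem tree_isRTree : IsRTree Tr := rooted.isRTree

theorem bounded : NormBounded (Set.range gamF) := by
  refine ⟨2, ?_⟩
  rintro _ ⟨j, rfl⟩
  rw [← norm_inc, inc_gamF]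
  exact gam_norm j

theorem condA_holds : CondA (Set.range gamF) := by
  intro ε hε
  refine ⟨ε, hε, fun n a x y hxy hγ I hI => ?_⟩
  have hinc : inc Tr root (∑ i, a i • molecule root (x i) (y i)) =
      ∑ i, a i • mol root (x i) (y i) := by
    rw [map_sum]
    refine Finset.sum_congr rfl fun i _ => ?_
    rw [map_smul, inc_molecule]
  rw [← norm_inc, hinc] at hγ
  have h1 : ∀ D ∈ Set.range gamF, (∑ i ∈ I, |a i|) - ε ≤
      dist (∑ i, a i • molecule root (x i) (y i)) D := by
    rintro _ ⟨j, rfl⟩
    rw [dist_eq_norm, ← norm_inc, map_sub, hinc, inc_gamF]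
    have h2 := condA rooted (gam j) (phi j) (gam_rep j) (phi_le j) a x y hxy hγ I
    linarith
  have h2 := (Metric.le_infDist (Set.range_nonempty gamF)).mpr (fun D hD => h1 D hD)
  linarith

theorem mem_freeSub {A : Set Tr} {β : StrongDual ℝ (Lip0 Tr root)} (hβ : β ∈ freeOn A) :
    ∃ β' ∈ freeSub root A, inc Tr root β' = β := by
  have h1 : β ∈ LFree Tr root :=
    Submodule.topologicalClosure_mono (Submodule.span_mono (Set.image_subset_range _ _)) hβ
  obtain ⟨β', hβ'⟩ : ∃ β' : FreeSp Tr root, inc Tr root β' = β := ⟨⟨β, h1⟩, rfl⟩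
  refine ⟨β', ?_, hβ'⟩
  have key : β' ∈ closure ((Submodule.span ℝ (delta root '' A) : Submodule ℝ (FreeSp Tr root)) :
      Set (FreeSp Tr root)) := by
    rw [Metric.mem_closure_iff]
    intro ε hε
    have h2 : β ∈ closure ((Submodule.span ℝ (dlt Tr root '' A) : Submodule ℝ _) : Set _) := hβ
    rw [Metric.mem_closure_iff] at h2
    obtain ⟨ν, hν, hd⟩ := h2 ε hε
    have h3 : dlt Tr root '' A = inc Tr root '' (delta root '' A) := by
      rw [← Set.image_comp]
      rfl
    have h4 : ν ∈ Submodule.map (inc Tr root) (Submodule.span ℝ (delta root '' A)) := by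
      rw [Submodule.map_span, ← h3]
      exact hν
    obtain ⟨ν', hν', rfl⟩ := h4
    refine ⟨ν', hν', ?_⟩
    rw [dist_eq_norm, ← norm_inc, map_sub, hβ']
    rw [dist_eq_norm] at hd
    exact hd
  exact key

theorem unif_holds : UniformlyRegular (Set.range gamF) := by
  intro U hU ε hε
  obtain ⟨K, hK, hKU, h⟩ := unif U hU ε hε
  refine ⟨K, hK, hKU, ?_⟩
  rintro _ ⟨j, rfl⟩
  obtain ⟨β, hβ, hn⟩ := h j
  obtain ⟨β', hβ', hinc⟩ := mem_freeSub hβ
  refine ⟨β', hβ', ?_⟩
  rw [← norm_inc, map_sub, inc_gamF, hinc]
  exact hn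

/-- evaluation at a Lipschitz function as a functional -/
def evF (f : Lip0 Tr root) : FreeSp Tr root →L[ℝ] ℝ :=
  LinearMap.mkContinuous
    { toFun := fun γ => inc Tr root γ f
      map_add' := fun γ γ' => by rw [map_add, _root_.add_apply]
      map_smul' := fun c γ => by rw [map_smul, _root_.smul_apply, RingHom.id_apply] } ‖f‖
    (fun γ => by
      rw [mul_comm]
      exact (inc Tr root γ).le_opNorm f)

theorem evF_apply (f : Lip0 Tr root) (γ : FreeSp Tr root) : evF f γ = inc Tr root γ f := rfl

theorem evF_cont (f : Lip0 Tr root) :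
    Continuous fun w : WeakSpace ℝ (FreeSp Tr root) =>
      evF f ((toWeakSpace ℝ (FreeSp Tr root)).symm w) :=
  WeakBilin.eval_continuous (topDualPairing ℝ (FreeSp Tr root)).flip (evF f)

theorem tf_tendsto (γ : FreeSp Tr root) : Tendsto (fun N => evF (tf N) γ) atTop (𝓝 0) := by
  have hh0 : Tendsto (fun N => 1 - hh N) atTop (𝓝 0) := by
    have h1 : Tendsto (fun N : ℕ => (1 / 2 : ℝ) ^ (N ^ 2)) atTop (𝓝 0) :=
      (tendsto_pow_atTop_nhds_zero_of_lt_one (by norm_num) (by norm_num)).comp
        (tendsto_pow_atTop two_ne_zero)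
    refine h1.congr fun N => ?_
    unfold hh
    ring
  -- on the span
  have hspan : ∀ ν ∈ Submodule.span ℝ (Set.range (dlt Tr root)),
      Tendsto (fun N => ν (tf N)) atTop (𝓝 0) := by
    intro ν hν
    induction hν using Submodule.span_induction with
    | mem ν hν =>
      obtain ⟨z, rfl⟩ := hν
      refine squeeze_zero_norm (fun N => ?_) hh0
      rw [dlt_apply, Real.norm_eq_abs]
      exact tf_small N z
    | zero => simp
    | add x y _ _ hx hy =>
      have := hx.add hy
      rw [add_zero] at this
      exact this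
    | smul c x _ hx =>
      have := hx.const_mul c
      rw [mul_zero] at this
      exact this
  rw [Metric.tendsto_atTop]
  intro ε hε
  have h2 : inc Tr root γ ∈ closure ((Submodule.span ℝ (Set.range (dlt Tr root)) :
      Submodule ℝ _) : Set _) := inc_mem γ
  rw [Metric.mem_closure_iff] at h2
  obtain ⟨ν, hν, hd⟩ := h2 (ε / 2) (by positivity)
  obtain ⟨N0, hN0⟩ := (Metric.tendsto_atTop.mp (hspan ν hν)) (ε / 2) (by positivity)
  refine ⟨N0, fun N hN => ?_⟩
  have h3 := hN0 N hN
  rw [Real.dist_0_eq_abs] at h3 ⊢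
  rw [evF_apply]
  rw [dist_eq_norm] at hd
  have h4 : |(inc Tr root γ - ν) (tf N)| ≤ ‖inc Tr root γ - ν‖ := by
    refine ((inc Tr root γ - ν).le_opNorm (tf N)).trans ?_
    exact mul_le_of_le_one_right (norm_nonneg _) (tf_norm N)
  have h5 : inc Tr root γ (tf N) = (inc Tr root γ - ν) (tf N) + ν (tf N) := by
    rw [_root_.sub_apply]; ring
  rw [h5]
  refine (abs_add_le _ _).trans_lt ?_
  linarith

theorem not_compact : ¬ RelWeaklyCompact (Set.range gamF) := by
  intro hc
  unfold RelWeaklyCompact at hc
  obtain ⟨w, -, hw⟩ := hc.exists_mapClusterPt (f := atTop)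
    (u := fun j : ℕ => toWeakSpace ℝ (FreeSp Tr root) (gamF j))
    (by
      rw [Filter.le_principal_iff, Filter.mem_map]
      exact Filter.univ_mem' fun j => subset_closure ⟨gamF j, ⟨j, rfl⟩, rfl⟩)
  set γ := (toWeakSpace ℝ (FreeSp Tr root)).symm w with hγ
  have h1 : ∀ N, 1 ≤ evF (tf N) γ := by
    intro N
    have hcl : IsClosed {v : WeakSpace ℝ (FreeSp Tr root) |
        1 ≤ evF (tf N) ((toWeakSpace ℝ (FreeSp Tr root)).symm v)} :=
      isClosed_le continuous_const (evF_cont (tf N))
    have hev : ∀ᶠ j : ℕ in atTop, toWeakSpace ℝ (FreeSp Tr root) (gamF j) ∈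
        {v : WeakSpace ℝ (FreeSp Tr root) |
          1 ≤ evF (tf N) ((toWeakSpace ℝ (FreeSp Tr root)).symm v)} := by
      filter_upwards [eventually_ge_atTop N] with j hj
      show 1 ≤ evF (tf N) ((toWeakSpace ℝ (FreeSp Tr root)).symm
        (toWeakSpace ℝ (FreeSp Tr root) (gamF j)))
      rw [LinearEquiv.symm_apply_apply, evF_apply, inc_gamF]
      exact tf_gam N j hj
    have h2 : w ∈ closure {v : WeakSpace ℝ (FreeSp Tr root) |
        1 ≤ evF (tf N) ((toWeakSpace ℝ (FreeSp Tr root)).symm v)} := by
      rw [mem_closure_iff_frequently]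
      have h3 : ∃ᶠ v in Filter.map (fun j : ℕ => toWeakSpace ℝ (FreeSp Tr root) (gamF j)) atTop ⊓
          𝓝 w, v ∈ {v : WeakSpace ℝ (FreeSp Tr root) |
          1 ≤ evF (tf N) ((toWeakSpace ℝ (FreeSp Tr root)).symm v)} := by
        have h4 : (𝓝 w ⊓ Filter.map (fun j : ℕ => toWeakSpace ℝ (FreeSp Tr root) (gamF j))
          atTop).NeBot := hw
        rw [inf_comm] at h4
        refine Filter.Eventually.frequently ?_
        exact (Filter.eventually_map.mpr hev).filter_mono inf_le_left
      exact h3.filter_mono inf_le_right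
    rw [hcl.closure_eq] at h2
    exact h2
  have h2 := ge_of_tendsto' (tf_tendsto γ) h1
  norm_num at h2

/-- **Theorem (Q1 is false).** There is a compact `ℝ`-tree `T` with a base point `o` and a set
`W ⊆ F(T)` which is bounded, satisfies (a), is uniformly regular, and is not relatively weakly
compact.  In particular the equivalence asked for in Q1 fails. -/
theorem result :
    (∃ (T : Type) (_ : MetricSpace T) (o : T), CompactSpace T ∧ IsRTree T ∧
      ∃ W : Set (FreeSp T o), NormBounded W ∧ CondA W ∧ UniformlyRegular W ∧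
        ¬ RelWeaklyCompact W) ∧
    ¬ ∀ (T : Type) [MetricSpace T] (o : T), IsRTree T → ∀ W : Set (FreeSp T o),
      RelWeaklyCompact W ↔ (NormBounded W ∧ CondA W ∧ UniformlyRegular W) := by
  refine ⟨⟨Tr, inferInstance, root, inferInstance, tree_isRTree, Set.range gamF, bounded,
    condA_holds, unif_holds, not_compact⟩, ?_⟩
  intro h
  exact not_compact ((h Tr root tree_isRTree (Set.range gamF)).mpr
    ⟨bounded, condA_holds, unif_holds⟩)

end Pool.Agent.Results.MP_13bb8c_an.NotCharacterised
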